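import Pool.Agent.H32.HS.Neg
import Pool.Agent.H32.HS.Pos

/-!
# Haight's question: sharp failure, and the true statement for almost all integers

For `E ⊆ (0, ∞)` let `F(E) = ⋃_{r ≥ 1} r E` (`dilateUnion E`).  Haight asked whether for every
measurable `E` of positive measure and almost every `x > 0` one has `n x ∈ F(E)` for all large `n`.
-/

namespace Pool.Agent.Results.MP_bfec62_an.SharpFailure

open MeasureTheory Filter Topology
open Pool.Agent.H32.HS

/-- (1) The negated form of Haight's statement.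
(2) The sharp form: for every `δ(N) → 0`, every Lebesgue measurable `A ⊆ (0, ∞)` of finite measure
and every `ε > 0` there is a compact `E ⊆ A` with `|A \ E| ≤ ε` such that the complement of `F(E)`
in `(0, ∞)` has infinite measure, for every `x > 0` the relation `n x ∈ F(E)` holds for all large
`n` only if `x ∈ F(E)` (the trivial case), and for every `x > 0` outside `F(E)` there are
infinitely many primes `p` with `p x ∉ F(E)`, in number at least `δ(N) N / log N` up to `N` for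
infinitely many `N`.
(3) Haight's property does hold for almost all integers: for every Lebesgue measurable
`E ⊆ (0, ∞)` of positive measure and almost every `x > 0` the set of positive integers `n` with
`n x ∉ F(E)` has natural density zero. -/
theorem result :
    (∃ E : Set ℝ, MeasurableSet E ∧ E ⊆ Set.Ioi 0 ∧ 0 < volume E ∧
      ∃ X : Set ℝ, MeasurableSet X ∧ X ⊆ Set.Ioi 0 ∧ 0 < volume X ∧
        ∀ x ∈ X, {n : ℕ | 1 ≤ n ∧ (n : ℝ) * x ∉ dilateUnion E}.Infinite) ∧
    (∀ δ : ℕ → ℝ, Tendsto δ atTop (𝓝 0) → ∀ A : Set ℝ, A ⊆ Set.Ioi 0 →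
      NullMeasurableSet A volume → volume A ≠ ⊤ → ∀ ε : ℝ, 0 < ε →
      ∃ E : Set ℝ, E ⊆ A ∧ IsCompact E ∧ volume (A \ E) ≤ ENNReal.ofReal ε ∧
        volume (Set.Ioi 0 \ dilateUnion E) = ⊤ ∧
        ∀ x : ℝ, 0 < x →
          ((∃ n₀ : ℕ, ∀ n : ℕ, n₀ ≤ n → (n : ℝ) * x ∈ dilateUnion E) ↔ x ∈ dilateUnion E) ∧
          (x ∉ dilateUnion E →
            {p : ℕ | p.Prime ∧ (p : ℝ) * x ∉ dilateUnion E}.Infinite ∧
            ∃ᶠ N : ℕ in atTop, δ N * (N / Real.log N) ≤
              ({p : ℕ | p.Prime ∧ p ≤ N ∧ (p : ℝ) * x ∉ dilateUnion E}.ncard : ℝ))) ∧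
    (∀ E : Set ℝ, E ⊆ Set.Ioi 0 → NullMeasurableSet E volume → volume E ≠ 0 →
      ∀ᵐ x : ℝ, 0 < x → Tendsto (fun N : ℕ =>
        ({n : ℕ | 1 ≤ n ∧ n ≤ N ∧ (n : ℝ) * x ∉ dilateUnion E}.ncard : ℝ) / N) atTop (𝓝 0)) := by
  refine ⟨?_, ?_, pos⟩
  · obtain ⟨E, hEA, hEc, hEv, hGv, hE⟩ := neg (fun _ => 0) tendsto_const_nhds (Set.Icc 1 2)
      (fun y hy => lt_of_lt_of_le one_pos hy.1) measurableSet_Icc.nullMeasurableSet
      (by rw [Real.volume_Icc]; exact ENNReal.ofReal_ne_top) (1 / 2) (by norm_num)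
    have hE0 : E ⊆ Set.Ioi 0 := fun y hy => lt_of_lt_of_le one_pos (hEA hy).1
    refine ⟨E, hEc.isClosed.measurableSet, hE0, ?_, Set.Ioi 0 \ dilateUnion E,
      measurableSet_Ioi.diff (measurableSet_dilateUnion hEc), Set.sdiff_subset, ?_, ?_⟩
    · rw [pos_iff_ne_zero]
      intro h0
      have h1 : volume (Set.Icc (1 : ℝ) 2) ≤ volume (Set.Icc (1 : ℝ) 2 \ E) + volume E := by
        refine (measure_mono ?_).trans (measure_union_le _ _)
        intro y hy
        by_cases h : y ∈ E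
        · exact Or.inr h
        · exact Or.inl ⟨hy, h⟩
      rw [h0, add_zero, Real.volume_Icc] at h1
      have h2 := h1.trans hEv
      rw [ENNReal.ofReal_le_ofReal_iff (by norm_num)] at h2
      norm_num at h2
    · rw [hGv]
      exact ENNReal.coe_lt_top
    · intro x hx
      refine ((hE x hx.1 hx.2).1).mono ?_
      intro p hp
      exact ⟨hp.1.one_le, hp.2⟩
  · intro δ hδ A hA0 hA hAfin ε hε
    obtain ⟨E, hEA, hEc, hEv, hGv, hE⟩ := neg δ hδ A hA0 hA hAfin ε hε
    refine ⟨E, hEA, hEc, hEv, hGv, fun x hx => ⟨⟨?_, ?_⟩, hE x hx⟩⟩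
    · rintro ⟨n₀, hn₀⟩
      by_contra hcon
      obtain ⟨p, hp, hpn⟩ := (hE x hx hcon).1.exists_gt n₀
      exact hp.2 (hn₀ p hpn.le)
    · intro hxF
      exact ⟨1, fun n hn => mul_mem_dilateUnion hxF hn⟩

end Pool.Agent.Results.MP_bfec62_an.SharpFailure
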